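import Mathlib
import Pool.Agent.V1213.PL.Pos
import Pool.Agent.TH178.ZF.Asm

set_option autoImplicit false

/-!
# Logarithmic means of real characters: positivity of order `C (log X)⁴`

For a real character `χ` let `R_k(x) = ∑_{n ≤ x} χ(n) (log (x/n))^k`.  It is known from a result handed in
earlier (`LogMeanZeros`) that `L(s,χ)` has no zero in `(0,1)` if and only if for some `k` all values
`R_k(x)`, `x > 1`, are nonnegative, and that then `R_k(x) > 0` for all `x > 1` and all `k ≥ K(χ)`, with an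
unspecified `K(χ)`.

Here the order `K(χ)` is bounded by a power of the logarithm of the conductor: (1) for every real primitive
character of conductor `≤ X` for which `L(s,χ)` has no zero with `0 < Re s < 1`, `|Im s| ≤ c / log X`, one
has `R_k(x) > 0` for all `x > 1` and all `k ≥ C (log X)⁴`, and uniformly in all `x` with `log x ≥ k / 2`

`R_k(x) = (1 + O((log X)² k^{-1/2})) L(k / log x, χ) (log x)^k`;

(2) this holds for at least 86.4 percent of the real primitive characters of conductor `≤ X`.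
-/

namespace Pool.Agent.Results.MP_0016c7_nt.HighOrderMeans

/-- The pairs `(N, χ)`, `1 ≤ N ≤ X`, with `χ` a nontrivial primitive quadratic Dirichlet character
modulo `N`. -/
def Quadratic (X : ℕ) : Set (Σ N : ℕ, DirichletCharacter ℂ N) :=
  {p | (p.1 ≠ 0 ∧ p.2.IsPrimitive ∧ p.2 ^ 2 = 1 ∧ p.2 ≠ 1) ∧ p.1 ≤ X}

/-- `R χ k x = ∑_{1 ≤ n ≤ x} χ(n) (log (x/n))^k` -/
noncomputable def R {N : ℕ} (χ : DirichletCharacter ℂ N) (k : ℕ) (x : ℝ) : ℝ :=
  ∑ n ∈ Finset.Icc 1 ⌊x⌋₊, (χ n).re * (Real.log (x / n)) ^ k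

/-- `L(s,χ)` has no zero with `0 < Re s < 1` and `|Im s| ≤ c / log X`. -/
def ZeroFree (c : ℝ) (X : ℕ) (p : Σ N : ℕ, DirichletCharacter ℂ N) : Prop :=
  ∃ _ : NeZero p.1, ∀ s : ℂ, 0 < s.re → s.re < 1 → |s.im| ≤ c / Real.log X →
    DirichletCharacter.LFunction p.2 s ≠ 0

/-- For all `k ≥ C (log X)⁴`: the mean `R_k(x)` is positive for all `x > 1`, and it is equal to
`(1 + θ) L(k / log x, χ) (log x)^k` with `|θ| ≤ C (log X)² / √k` for all `x` with `log x ≥ k / 2`. -/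
def Means (C : ℝ) (X : ℕ) (p : Σ N : ℕ, DirichletCharacter ℂ N) : Prop :=
  ∃ _ : NeZero p.1, ∀ k : ℕ, C * (Real.log X) ^ 4 ≤ k →
    (∀ x : ℝ, 1 < x → 0 < R p.2 k x) ∧
    ∀ x : ℝ, 0 < x → (k : ℝ) / 2 ≤ Real.log x →
      0 < (DirichletCharacter.LFunction p.2 ((k / Real.log x : ℝ) : ℂ)).re ∧
      |R p.2 k x - (DirichletCharacter.LFunction p.2 ((k / Real.log x : ℝ) : ℂ)).re *
          (Real.log x) ^ k| ≤
        C * (Real.log X) ^ 2 / Real.sqrt k *
          ((DirichletCharacter.LFunction p.2 ((k / Real.log x : ℝ) : ℂ)).re * (Real.log x) ^ k)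

lemma R_eq {N : ℕ} (χ : DirichletCharacter ℂ N) (k : ℕ) {x : ℝ} (hx : 0 < x) :
    R χ k x = (k.factorial : ℝ) * H353.LM.qq (H353.LM.av χ) k (Real.log x) := by
  unfold R H353.LM.qq H353.LM.av
  rw [Real.exp_log hx, mul_div_cancel₀ _ (by exact_mod_cast (Nat.factorial_pos k).ne')]
  refine Finset.sum_congr rfl fun n hn => ?_
  have hn1 : 1 ≤ n := (Finset.mem_Icc.mp hn).1
  have hn0 : (n:ℝ) ≠ 0 := by exact_mod_cast (by omega : n ≠ 0)
  rw [Real.log_div hx.ne' hn0]

/-- positivity from the absence of zeros -/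
lemma pos_of_ne {N : ℕ} [NeZero N] (χ : DirichletCharacter ℂ N) (h1 : χ ≠ 1) (h2 : χ ^ 2 = 1)
    (h : ∀ s : ℝ, 0 < s → s < 1 → χ.LFunction (s : ℂ) ≠ 0) {s : ℝ} (hs : 0 < s) :
    0 < (χ.LFunction (s : ℂ)).re := by
  have hone : ∀ x : ℝ, 1 ≤ x → 0 < (χ.LFunction (x : ℂ)).re := by
    intro x hx
    rw [H353.LM.L_eq χ h1 h2 (by linarith), Complex.ofReal_re]
    exact mul_pos (by linarith) (H353.LM.AA_pos χ h1 h2 x hx)
  rcases lt_or_ge s 1 with h3 | h3
  · by_contra hcon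
    have hcont : ContinuousOn (fun x : ℝ => (χ.LFunction (x : ℂ)).re) (Set.Icc s 1) :=
      (Complex.continuous_re.comp ((DirichletCharacter.differentiable_LFunction h1).continuous.comp
        Complex.continuous_ofReal)).continuousOn
    obtain ⟨v, hv, hv0⟩ := intermediate_value_Icc h3.le hcont ⟨not_lt.1 hcon, (hone 1 le_rfl).le⟩
    simp only at hv0
    have hv1 : v < 1 := by
      rcases hv.2.lt_or_eq with h4 | h4
      · exact h4
      · rw [h4] at hv0
        exact absurd hv0 (hone 1 le_rfl).ne'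
    apply h v (hs.trans_le hv.1) hv1
    rw [H353.LM.L_eq χ h1 h2 (hs.trans_le hv.1)] at hv0 ⊢
    rw [Complex.ofReal_re] at hv0
    rw [hv0, Complex.ofReal_zero]
  · exact hone s h3

/-- **Theorem.** (1) For every `c > 0` there is `C > 0` such that for all large `X` all real primitive
characters of conductor at most `X` for which `L(s,χ)` has no zero with `0 < Re s < 1`,
`|Im s| ≤ c / log X` have property `Means C X`. (2) There is `C > 0` such that for all large `X` at least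
86.4 percent of the real primitive characters of conductor at most `X` have property `Means C X`. -/
theorem result :
    (∀ c : ℝ, 0 < c → ∃ C : ℝ, 0 < C ∧ ∃ X0 : ℕ, ∀ X : ℕ, X0 ≤ X → ∀ p ∈ Quadratic X,
      ZeroFree c X p → Means C X p) ∧
    ∃ C : ℝ, 0 < C ∧ ∃ X0 : ℕ, ∀ X : ℕ, X0 ≤ X → (Quadratic X).Finite ∧
      (864 / 1000 : ℝ) * ((Quadratic X).ncard : ℝ) ≤
        ((Quadratic X ∩ {p | Means C X p}).ncard : ℝ) := by
  have hfirst : ∀ c : ℝ, 0 < c → ∃ C : ℝ, 0 < C ∧ ∃ X0 : ℕ, ∀ X : ℕ, X0 ≤ X → ∀ p ∈ Quadratic X,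
      ZeroFree c X p → Means C X p := by
    intro c hc
    obtain ⟨C, hC, hmain⟩ := Pool.Agent.V1213.PL.pos_chi (c := min c 1) (lt_min hc one_pos)
      (min_le_right _ _)
    refine ⟨C, by linarith, 3, fun X hX p hp hz => ?_⟩
    obtain ⟨hNz, hz⟩ := hz
    obtain ⟨⟨hp0, hp1, hp2, hp3⟩, hpX⟩ := hp
    have hX3 : (3 : ℝ) ≤ X := by exact_mod_cast hX
    have hL : 1 ≤ Real.log X := by
      rw [Real.le_log_iff_exp_le (by linarith)]
      linarith [Real.exp_one_lt_d9]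
    have hN : (p.1 : ℝ) ≤ Real.exp (Real.log X) := by
      rw [Real.exp_log (by linarith)]
      exact_mod_cast hpX
    have hz' : ∀ s : ℂ, 0 < s.re → s.re < 1 → |s.im| ≤ min c 1 / Real.log X →
        DirichletCharacter.LFunction p.2 s ≠ 0 := by
      intro s hs0 hs1 hs2
      refine hz s hs0 hs1 (hs2.trans ?_)
      gcongr
      exact min_le_left _ _
    have hne : ∀ s : ℝ, 0 < s → s < 1 → DirichletCharacter.LFunction p.2 (s : ℂ) ≠ 0 := by
      intro s hs0 hs1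
      refine hz (s : ℂ) (by simpa using hs0) (by simpa using hs1) ?_
      rw [Complex.ofReal_im, abs_zero]
      positivity
    have hpos : ∀ s : ℝ, 0 < s → 0 < (DirichletCharacter.LFunction p.2 (s : ℂ)).re :=
      fun s hs => pos_of_ne p.2 hp3 hp2 hne hs
    refine ⟨hNz, fun k hk => ?_⟩
    obtain ⟨h3, h4⟩ := hmain p.1 p.2 hp1 hp3 hp2 (fun s hs _ => hpos s hs) (Real.log X) hL hN hz' k hk
    have hfk : (0 : ℝ) < (k.factorial : ℝ) := by exact_mod_cast Nat.factorial_pos k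
    have hk0 : (0 : ℝ) < k := by
      have : 0 < C * Real.log X ^ 4 := by positivity
      linarith
    refine ⟨fun x hx => ?_, fun x hx hkx => ⟨?_, ?_⟩⟩
    · rw [R_eq _ _ (by linarith)]
      exact mul_pos hfk (h3 _ (Real.log_pos hx))
    · exact hpos _ (div_pos hk0 (by linarith))
    · rw [R_eq _ _ hx]
      exact h4 _ hkx
  refine ⟨hfirst, ?_⟩
  obtain ⟨c, hc, N0, hN0⟩ := Pool.Agent.TH178.ZF.main
  obtain ⟨C, hC, X0, hX0⟩ := hfirst c hc
  refine ⟨C, hC, max N0 X0, fun X hX => ?_⟩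
  obtain ⟨h1, h2⟩ := hN0 X ((le_max_left _ _).trans hX)
  have hset : Quadratic X = Pool.Agent.H306R2.RG.LnkC.RPC ∩ {p | p.1 ≤ X} := rfl
  rw [hset]
  refine ⟨h1, h2.trans ?_⟩
  have hsub : (Pool.Agent.H306R2.RG.LnkC.RPC ∩ {p | p.1 ≤ X} ∩
        {p | Pool.Agent.TH178.ZF.GoodP c X p}) ⊆
      (Pool.Agent.H306R2.RG.LnkC.RPC ∩ {p | p.1 ≤ X}) ∩ {p | Means C X p} := by
    rintro p ⟨hp1, hp2⟩
    obtain ⟨-, hNz, hp3⟩ := hp2
    refine ⟨hp1, hX0 X ((le_max_right _ _).trans hX) p (hset ▸ hp1) ⟨hNz, fun s hs0 hs1 hs2 => ?_⟩⟩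
    exact hp3 s hs0 hs1 (Or.inl hs2)
  exact_mod_cast Set.ncard_le_ncard hsub (h1.subset Set.inter_subset_left)

end Pool.Agent.Results.MP_0016c7_nt.HighOrderMeans
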