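import Mathlib
import Pool.Agent.TH560.QT.Fin
import Pool.Agent.V11104.Pat3

set_option autoImplicit false

/-!
# Additive patterns of any length of quadratic fields without real zeros in `(0,1)`

Call a squarefree integer `n ≠ 1` good if `L(s, χ) > 0` for `0 < s < 1` and all Dirichlet
characters `χ`, primitive or not, of the quadratic field `ℚ(√n)`. (Chowla's conjecture: all
squarefree `n ≠ 1` are good.) The starting files show that the density of the good numbers among
the squarefree numbers is at least `0.8645`, and deduce from this, by adding up the exceptions, that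
`3` arbitrary shifts, or `7` shifts divisible by a suitable number, are good together for a positive
proportion of the `n`; for more shifts the exceptions would fill everything.

Here the number of shifts is arbitrary. Let `m` and `ε > 0` be given. There is `N` such that among
any `N` shifts `h 1, …, h N` with any signs, for every large `X`, there are `m` for which all the
correlations of orders `1, 2, …, m` in `[0, X]` are at least those of independent subsets of relative
density `0.864` of the squarefree numbers: for every subset `Q` of the `m` shifts at least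
`(0.607 · 0.864^|Q| - ε) X` of the `n ≤ X` are such that `± (n + h i)` is good for all `i` in `Q`.
The same holds for both signs at once with `0.7285^|Q|`. In particular every infinite set of shifts
contains, for every `m`, a subset of `m` shifts such that for infinitely many `n` all the `2 m`
numbers `± (n + h)` are good, and the number of these `n` in `[0, X]` is, for arbitrarily large `X`,
at least `(0.607 · 0.7285^m - ε) X`.

Method: by the pigeonhole principle many of the shifts are congruent modulo a number divisible by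
all small squares; for these the squarefree numbers `n + h i` have nearly the same `n`; inside this
common set the inequality of Gillis in all orders is used, and Ramsey's theorem for all sizes makes
it hereditary.
-/

namespace Pool.Agent.Results.MP_0016c7_nt.PatternsOfAnyLength

/-- `χ` is attached to `n`: `χ p` is the Legendre symbol `(n / p)` for all large primes `p`. For a
squarefree `n ≠ 1` these are the primitive quadratic character of the field `ℚ(√n)` and all
characters induced by it. -/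
def Attached (n : ℤ) {N : ℕ} (χ : DirichletCharacter ℂ N) : Prop :=
  ∃ B : ℕ, ∀ p : ℕ, p.Prime → B ≤ p → χ (p : ZMod N) = ((jacobiSym n p : ℤ) : ℂ)

/-- `n` is good: `n` is squarefree, `n ≠ 1`, and `L(s, χ)` is real and positive for `0 < s < 1` for
every Dirichlet character `χ` attached to `n`. -/
def Good (n : ℤ) : Prop :=
  Squarefree n ∧ n ≠ 1 ∧ ∀ (N : ℕ) (_ : NeZero N) (χ : DirichletCharacter ℂ N), Attached n χ →
    ∀ s : ℝ, 0 < s → s < 1 → (DirichletCharacter.LFunction χ (s : ℂ)).im = 0 ∧
      0 < (DirichletCharacter.LFunction χ (s : ℂ)).re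

/-- one set of indices for infinitely many `X` -/
lemma infinitely {N : ℕ} (P : Finset (Fin N) → ℕ → Prop) (m : ℕ)
    (h : ∃ X0 : ℕ, ∀ X : ℕ, X0 ≤ X → ∃ S : Finset (Fin N), S.card = m ∧ P S X) :
    ∃ S : Finset (Fin N), S.card = m ∧ ∀ X1 : ℕ, ∃ X : ℕ, X1 ≤ X ∧ P S X := by
  obtain ⟨X0, hX0⟩ := h
  by_contra hcon
  push Not at hcon
  choose! f hf using hcon
  let X := X0 + ∑ S : Finset (Fin N), f S
  obtain ⟨S, hS, hP⟩ := hX0 X (Nat.le_add_right _ _)
  refine hf S hS X ?_ hP
  exact (Finset.single_le_sum (f := f) (fun _ _ => Nat.zero_le _) (Finset.mem_univ S)).trans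
    (Nat.le_add_left _ _)

/-- **Theorem.** (0) For every squarefree `n ≠ 1` there is a primitive quadratic character
attached to `n`, so that the definition of good numbers is not vacuous. (1) For all `m` and `ε > 0`
there is `N` such that for any `N` shifts `h i` and signs `s i` and every large `X` there is a set
`S` of `m` indices with the following property: for every subset `Q` of `S`, for at least
`(0.607 · 0.864^|Q| - ε) X` of the integers `n ≤ X` the numbers `s i (n + h i)` are good for all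
`i ∈ Q`. (2) The same for both signs at once, with `0.7285` instead of `0.864`. (3) Every infinite
set of shifts contains, for all `m` and `ε > 0`, a subset `S` of `m` shifts such that there are
arbitrarily large `X` for which, for all subsets `Q` of `S`, for at least
`(0.607 · 0.7285^|Q| - ε) X` of the integers `n ≤ X` the numbers `n + h` and `-(n + h)` are good for
all `h ∈ Q`. -/
theorem result :
    (∀ n : ℤ, Squarefree n → n ≠ 1 → ∃ (N : ℕ) (_ : NeZero N) (χ : DirichletCharacter ℂ N),
      χ.IsPrimitive ∧ χ ^ 2 = 1 ∧ χ ≠ 1 ∧ Attached n χ) ∧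
    (∀ (m : ℕ) (ε : ℝ), 0 < ε → ∃ N : ℕ, ∀ s : Fin N → ℤ, (∀ i, s i = 1 ∨ s i = -1) →
      ∀ h : Fin N → ℕ, ∃ X0 : ℕ, ∀ X : ℕ, X0 ≤ X → ∃ S : Finset (Fin N), S.card = m ∧
        ∀ Q ⊆ S, (607 / 1000 * (864 / 1000) ^ Q.card - ε) * X ≤
          ({n : ℕ | n ≤ X ∧ ∀ i ∈ Q, Good (s i * ((n : ℤ) + h i))}.ncard : ℝ)) ∧
    (∀ (m : ℕ) (ε : ℝ), 0 < ε → ∃ N : ℕ, ∀ h : Fin N → ℕ, ∃ X0 : ℕ, ∀ X : ℕ, X0 ≤ X →
      ∃ S : Finset (Fin N), S.card = m ∧
        ∀ Q ⊆ S, (607 / 1000 * (7285 / 10000) ^ Q.card - ε) * X ≤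
          ({n : ℕ | n ≤ X ∧ ∀ i ∈ Q, Good ((n : ℤ) + h i) ∧ Good (-((n : ℤ) + h i))}.ncard : ℝ)) ∧
    (∀ 𝓗 : Set ℕ, 𝓗.Infinite → ∀ (m : ℕ) (ε : ℝ), 0 < ε → ∃ S : Finset ℕ, ↑S ⊆ 𝓗 ∧ S.card = m ∧
      ∀ X1 : ℕ, ∃ X : ℕ, X1 ≤ X ∧ ∀ Q ⊆ S, (607 / 1000 * (7285 / 10000) ^ Q.card - ε) * X ≤
          ({n : ℕ | n ≤ X ∧ ∀ h ∈ Q, Good ((n : ℤ) + h) ∧ Good (-((n : ℤ) + h))}.ncard : ℝ)) := by
  have H := Pool.Agent.TH560.QT.dens
  have e1 : ∀ n : ℤ, Pool.Agent.TH560.QT.Good n = Good n := fun _ => rfl
  have two : ∀ (m : ℕ) (ε : ℝ), 0 < ε → ∃ N : ℕ, ∀ h : Fin N → ℕ, ∃ X0 : ℕ, ∀ X : ℕ, X0 ≤ X →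
      ∃ S : Finset (Fin N), S.card = m ∧
        ∀ Q ⊆ S, (607 / 1000 * (7285 / 10000) ^ Q.card - ε) * X ≤
          ({n : ℕ | n ≤ X ∧ ∀ i ∈ Q, Good ((n : ℤ) + h i) ∧
            Good (-((n : ℤ) + h i))}.ncard : ℝ) := by
    intro m ε hε
    obtain ⟨N, hN⟩ := Pool.Agent.V11104.Pat3.pat_two H m ε hε
    refine ⟨N, fun h => ?_⟩
    obtain ⟨X0, h0⟩ := hN h
    refine ⟨X0, fun X hX => ?_⟩
    obtain ⟨S, hS, hQ⟩ := h0 X hX
    refine ⟨S, hS, fun Q hQS => (hQ Q hQS).trans (le_of_eq ?_)⟩
    unfold Pool.Agent.TH560.QT.cnt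
    simp only [Pool.Agent.TH560.QT.Two, Pool.Agent.TH560.QT.GG, e1, Nat.cast_add,
      Set.mem_ofPred_eq, one_mul, neg_one_mul]
  refine ⟨fun n hn h1 => Pool.Agent.TH560.QT.exists_char n hn h1, fun m ε hε => ?_, two, ?_⟩
  · obtain ⟨N, hN⟩ := Pool.Agent.V11104.Pat3.pat_one H m ε hε
    refine ⟨N, fun s hs h => ?_⟩
    obtain ⟨X0, h0⟩ := hN s hs h
    refine ⟨X0, fun X hX => ?_⟩
    obtain ⟨S, hS, hQ⟩ := h0 X hX
    refine ⟨S, hS, fun Q hQS => (hQ Q hQS).trans (le_of_eq ?_)⟩
    unfold Pool.Agent.TH560.QT.cnt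
    simp only [Pool.Agent.TH560.QT.GG, e1, Nat.cast_add, Set.mem_ofPred_eq]
  · intro 𝓗 hH m ε hε
    classical
    obtain ⟨N, hN⟩ := two m ε hε
    obtain ⟨f, hf⟩ : ∃ f : ℕ → ℕ, Function.Injective f ∧ ∀ i, f i ∈ 𝓗 := by
      let g := hH.natEmbedding
      exact ⟨fun i => (g i : ℕ), fun a b e => g.injective (Subtype.ext e), fun i => (g i).2⟩
    obtain ⟨S, hS, hinf⟩ := infinitely (fun S X => ∀ Q ⊆ S,
      (607 / 1000 * (7285 / 10000) ^ Q.card - ε) * X ≤
          ({n : ℕ | n ≤ X ∧ ∀ i ∈ Q, Good ((n : ℤ) + (f i : ℕ)) ∧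
            Good (-((n : ℤ) + (f i : ℕ)))}.ncard : ℝ)) m (hN fun i => f i)
    have hinj : Function.Injective (fun i : Fin N => f i) := fun a b e => Fin.ext (hf.1 e)
    refine ⟨S.image (fun i : Fin N => f i), ?_, ?_, fun X1 => ?_⟩
    · intro x hx
      obtain ⟨i, -, rfl⟩ := Finset.mem_image.1 (Finset.mem_coe.1 hx)
      exact hf.2 i
    · rw [Finset.card_image_of_injective _ hinj, hS]
    · obtain ⟨X, hX1, hX⟩ := hinf X1
      refine ⟨X, hX1, fun Q hQ => ?_⟩
      have hQe : (S.filter (fun j : Fin N => f j ∈ Q)).image (fun i : Fin N => f i) = Q := by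
        ext i
        simp only [Finset.mem_image, Finset.mem_filter]
        constructor
        · rintro ⟨j, ⟨-, hj⟩, rfl⟩
          exact hj
        · intro hi
          obtain ⟨j, hj, hji⟩ := Finset.mem_image.1 (hQ hi)
          exact ⟨j, ⟨hj, hji ▸ hi⟩, hji⟩
      have hcard : (S.filter (fun j : Fin N => f j ∈ Q)).card = Q.card := by
        conv_rhs => rw [← hQe, Finset.card_image_of_injective _ hinj]
      have h4 := hX (S.filter (fun j : Fin N => f j ∈ Q)) (Finset.filter_subset _ _)
      rw [hcard] at h4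
      refine h4.trans (le_of_eq ?_)
      congr 2
      ext n
      simp only [Set.mem_ofPred_eq]
      refine and_congr_right fun _ => ?_
      constructor
      · intro hn h hh
        rw [← hQe] at hh
        obtain ⟨j, hj, hji⟩ := Finset.mem_image.1 hh
        have := hn j hj
        rwa [hji] at this
      · intro hn j hj
        exact hn (f j) ((Finset.mem_filter.1 hj).2)

end Pool.Agent.Results.MP_0016c7_nt.PatternsOfAnyLength
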