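import Mathlib
import Pool.Agent.V1213.HB.App

set_option autoImplicit false

/-!
# A Riemann hypothesis for the rotated symmetrization of 80 percent of the quadratic L-functions

Let `χ` be a nontrivial real primitive character modulo `N` and `Ξ(z) = N^(s/2) Λ(s, χ)`, `s = 1/2 + z`, its completed
L-function, `Ξ(z) = ∑ a_k z^(2k)`. The generalised Riemann hypothesis for `χ` says that `Ξ` has all its zeros on one
line, or equivalently (Jensen, Polya) that all Jensen polynomials of the sequence `k! a_k` have only real zeros.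

The starting results on this problem show that for at least 80 percent of the `χ` all zeros of `L(s, χ)` in the
critical strip satisfy `|Im s| > |Re s - 1/2|`, and that all `a_k` are positive. We show that for these `χ`:

* `|Ξ(iz)| < |Ξ(z)|` whenever `|Im z| < |Re z|`;
* for every complex number `c` with `|c| = 1` ALL zeros of `Ξ(z) + c Ξ(iz)` lie on the two lines `|Re z| = |Im z|`;
* all Jensen polynomials, of every degree and every shift, of the two sequences `m! a_(2m)` and `m! a_(2m+1)` have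
  only real zeros.

Proof. The function `G(w) = Ξ(√w)` is a real entire function of order less than one with all zeros in the open left half
plane. It is a limit of real polynomials with the same property (Hadamard), for which `|G(-w)| ≤ |G(w)|` if `Re w ≥ 0`;
by the maximum principle the inequality is strict for `Re w > 0`. So the even and the odd part of `G` have real
negative zeros only (Hermite, Biehler), and this passes to their derivatives and to the Jensen polynomials.
-/

namespace Pool.Agent.Results.MP_0016c7_nt.RotatedSymmetrization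

/-- The pairs `(N, χ)`, `1 ≤ N ≤ X`, with `χ` a nontrivial primitive quadratic Dirichlet character
modulo `N`. -/
def Quadratic (X : ℕ) : Set (Σ N : ℕ, DirichletCharacter ℂ N) :=
  {p | (p.1 ≠ 0 ∧ p.2.IsPrimitive ∧ p.2 ^ 2 = 1 ∧ p.2 ≠ 1) ∧ p.1 ≤ X}

/-- The completed L-function at `1/2 + z`, with the factor `N^((1/2 + z)/2)`. -/
noncomputable def Xi {N : ℕ} [NeZero N] (χ : DirichletCharacter ℂ N) (z : ℂ) : ℂ :=
  (N : ℂ) ^ ((1 / 2 + z) / 2) * DirichletCharacter.completedLFunction χ (1 / 2 + z)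

/-- The Taylor coefficient of `z^(2k)` in `Xi χ z`. -/
noncomputable def a {N : ℕ} [NeZero N] (χ : DirichletCharacter ℂ N) (k : ℕ) : ℂ :=
  iteratedDeriv (2 * k) (Xi χ) 0 / ((2 * k).factorial : ℂ)

/-- The completed L-function is `∑ a_k z^(2k)` with real positive `a_k`; its value at `iz` is smaller in absolute
value than its value at `z` for `|Im z| < |Re z|`; all zeros of `Ξ(z) + c Ξ(iz)` satisfy `|Re z| = |Im z|` if
`|c| = 1`; the Jensen polynomials of all degrees `d` and shifts `n` of the sequences `m! a_(2m)` (for `r = 0`) and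
`m! a_(2m+1)` (for `r = 1`) have only real zeros. -/
def Good (p : Σ N : ℕ, DirichletCharacter ℂ N) : Prop :=
  ∃ _ : NeZero p.1,
    (∀ k : ℕ, (a p.2 k).im = 0 ∧ 0 < (a p.2 k).re) ∧
    (∀ z : ℂ, HasSum (fun k : ℕ => a p.2 k * z ^ (2 * k)) (Xi p.2 z)) ∧
    (∀ z : ℂ, |z.im| < |z.re| → ‖Xi p.2 (Complex.I * z)‖ < ‖Xi p.2 z‖) ∧
    (∀ c z : ℂ, ‖c‖ = 1 → Xi p.2 z + c * Xi p.2 (Complex.I * z) = 0 → |z.re| = |z.im|) ∧
    (∀ r : ℕ, r < 2 → ∀ (n d : ℕ) (x : ℂ),
      (∑ j ∈ Finset.range (d + 1), (d.choose j : ℂ) * (((n + j).factorial : ℂ) *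
        a p.2 (2 * (n + j) + r)) * x ^ j) = 0 → x.im = 0)

lemma good_of {N : ℕ} [NeZero N] (χ : DirichletCharacter ℂ N)
    (h : Pool.Agent.V1213.HB.HBF (fun z => Pool.Agent.W169.RT.LamC χ (1 / 2 + z))) : Good ⟨N, χ⟩ := by
  have e : (fun z => Pool.Agent.W169.RT.LamC χ (1 / 2 + z)) = Xi χ := rfl
  rw [e] at h
  obtain ⟨h1, h2, h3, h4⟩ := h
  have hf : ∀ k : ℕ, a χ k = (((((2 * k).factorial : ℝ))⁻¹ : ℝ) : ℂ) * iteratedDeriv (2 * k) (Xi χ) 0 := by
    intro k
    unfold a
    push_cast
    rw [div_eq_inv_mul]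
  have hpos : ∀ k : ℕ, (0 : ℝ) < (((2 * k).factorial : ℝ))⁻¹ := fun k => by positivity
  refine ⟨inferInstance, fun k => ?_, fun z => ?_, h3, fun c z hc hz => ?_, fun r hr n d x hx => ?_⟩
  · show (a χ k).im = 0 ∧ 0 < (a χ k).re
    rw [hf, Complex.im_ofReal_mul, Complex.re_ofReal_mul, (h1 k).1, mul_zero]
    exact ⟨rfl, mul_pos (hpos k) (h1 k).2⟩
  · have := h2 z
    simp only [← pow_mul] at this
    exact this
  · have hz' : Xi χ z + c * Xi χ (Complex.I * z) = 0 := hz
    have hn : ‖Xi χ z‖ = ‖Xi χ (Complex.I * z)‖ := by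
      rw [eq_neg_of_add_eq_zero_left hz', norm_neg, norm_mul, hc, one_mul]
    rcases lt_trichotomy |z.im| |z.re| with h5 | h5 | h5
    · exact absurd hn (h3 z h5).ne'
    · exact h5.symm
    · -- replace `z` by `i z`
      have h6 := h3 (Complex.I * z) (by
        rw [Complex.mul_im, Complex.mul_re, Complex.I_re, Complex.I_im]
        simpa using h5)
      have h7 : Xi χ (Complex.I * (Complex.I * z)) = Xi χ z := by
        have s1 := h2 (Complex.I * (Complex.I * z))
        have s2 := h2 z
        have e2 : (Complex.I * (Complex.I * z)) ^ 2 = z ^ 2 := by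
          rw [← mul_assoc, Complex.I_mul_I]
          ring
        rw [e2] at s1
        exact s1.unique s2
      rw [h7] at h6
      exact absurd hn h6.ne
  · refine h4 r hr n d x (Eq.trans (Finset.sum_congr rfl fun j _ => ?_) hx)
    show _ = (d.choose j : ℂ) * (((n + j).factorial : ℂ) * a χ (2 * (n + j) + r)) * x ^ j
    unfold a
    ring

/-- **Theorem.** For all large `X`, at least 80 percent of the nontrivial real primitive characters `χ` of conductor
at most `X` are good in the above sense. -/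
theorem result : ∃ X0 : ℕ, ∀ X : ℕ, X0 ≤ X → (Quadratic X).Finite ∧
    (4 / 5 : ℝ) * ((Quadratic X).ncard : ℝ) ≤ ((Quadratic X ∩ {p | Good p}).ncard : ℝ) := by
  obtain ⟨N, hN⟩ := Pool.Agent.V1213.HB.mainHB
  refine ⟨N, fun X hX => ?_⟩
  obtain ⟨h1, h2⟩ := hN X hX
  have hset : Quadratic X = Pool.Agent.H306R2.RG.LnkC.RPC ∩ {p | p.1 ≤ X} := rfl
  rw [hset]
  refine ⟨h1, h2.trans ?_⟩
  have hsub : (Pool.Agent.H306R2.RG.LnkC.RPC ∩ {p | p.1 ≤ X} ∩
        {p | Pool.Agent.V1213.HB.GoodHB X p}) ⊆
      (Pool.Agent.H306R2.RG.LnkC.RPC ∩ {p | p.1 ≤ X}) ∩ {p | Good p} := by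
    rintro ⟨M, χ⟩ ⟨hp1, -, hNz, hHB⟩
    exact ⟨hp1, good_of χ hHB⟩
  exact_mod_cast Set.ncard_le_ncard hsub (h1.subset Set.inter_subset_left)

end Pool.Agent.Results.MP_0016c7_nt.RotatedSymmetrization
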