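import Pool.Agent.V11288.RZ.Chi
import Pool.Agent.Results.MP_0016c7_nt.LogMeanZeros

/-!
# Real zeros of quadratic `L(s,χ)` and sums over primes

Let `χ` be a nontrivial quadratic Dirichlet character modulo `q`. For `ρ' > ρ > 1` and `Y > 1` let

`S_{ρ,ρ'}(Y) = - ∑_{p ≤ exp((log Y)^{ρ'})} w_ρ(log p / log Y) log (1 - χ(p)/√p)`,

`w_ρ(u) = (1/2πi) ∫_{Re z = 1} exp(z - u z^{1/ρ}) dz/z`,

a smoothed logarithm of the Euler product at the central point `1/2`: the weight is a smooth function of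
`log p / log Y` with `w_ρ(u) → 1` for `u → 0`, and it is so small for `log p` much larger than `(log Y)^ρ` that the sum over
all primes can be cut off at `exp((log Y)^{ρ'})`.

It is shown for every single `χ`:

1. The following are equivalent: `L(s,χ) > 0` for all real `0 < s < 1`; for SOME `ρ' > ρ > 1` the sum
   `S_{ρ,ρ'}(Y)` is bounded for large `Y`; for ALL sufficiently large `ρ` and all `ρ' > ρ` it is bounded.

2. For `1/2 ≤ β < 1` the following are equivalent: `L(s,χ) ≠ 0` for all real `s` with `β < s < 1`; for SOME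
   `ρ' > ρ > 1` one has `S_{ρ,ρ'}(Y) = O(exp(((β - 1/2)^ρ + ε) (log Y)^ρ))` for every `ε > 0`; for ALL sufficiently
   large `ρ` and all `ρ' > ρ` this holds.

So the absence of real zeros (without any statement on complex zeros) is an assertion on sums of `χ` over
primes. The reason is that the sums `S_{ρ,ρ'}` see exactly the zeros in the sector
`|arg (s - 1/2)| < π/(2ρ)` (theorem of the library `Pool.Agent.TH942.ES`), and that for large `ρ` this sector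
contains no zeros but the real ones. In (1) the functional equation gives the interval `(0, 1/2)`.
-/

set_option autoImplicit false

open Filter Topology Set

namespace Pool.Agent.Results.MP_0016c7_nt.SumsOverPrimes

/-- The weight `w_ρ(u) = (1/2πi) ∫_{Re z = 1} exp(z - u z^{1/ρ}) dz/z`. -/
noncomputable def weight (ρ u : ℝ) : ℝ :=
  (2 * Real.pi)⁻¹ * ∫ t : ℝ, (Complex.exp ((1 + t * Complex.I) -
    u * (1 + t * Complex.I) ^ ((ρ⁻¹ : ℝ) : ℂ)) / (1 + t * Complex.I)).re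

/-- `S_{ρ,ρ'}(Y) = - ∑_{p ≤ exp((log Y)^{ρ'})} w_ρ(log p / log Y) log (1 - χ(p)/√p)`. -/
noncomputable def S {q : ℕ} (χ : DirichletCharacter ℂ q) (ρ ρ' Y : ℝ) : ℝ :=
  -∑ᶠ (p : Nat.Primes) (_ : ((p : ℕ) : ℝ) ≤ Real.exp (Real.log Y ^ ρ')),
    weight ρ (Real.log (p : ℕ) / Real.log Y) *
      Real.log (1 - (χ ((p : ℕ) : ZMod q)).re / √((p : ℕ) : ℝ))

/-- `S_{ρ,ρ'}(Y)` is bounded for large `Y`. -/
def Bounded {q : ℕ} (χ : DirichletCharacter ℂ q) (ρ ρ' : ℝ) : Prop :=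
  ∃ C : ℝ, ∀ᶠ Y : ℝ in atTop, |S χ ρ ρ' Y| ≤ C

/-- `S_{ρ,ρ'}(Y) = O(exp(((β - 1/2)^ρ + ε) (log Y)^ρ))` for every `ε > 0`. -/
def Growth {q : ℕ} (χ : DirichletCharacter ℂ q) (β ρ ρ' : ℝ) : Prop :=
  ∀ ε : ℝ, 0 < ε → ∃ C : ℝ, ∀ᶠ Y : ℝ in atTop,
    |S χ ρ ρ' Y| ≤ C * Real.exp (((β - 1 / 2) ^ ρ + ε) * Real.log Y ^ ρ)

open Pool.Agent.V11288

theorem S_eq {q : ℕ} {χ : DirichletCharacter ℂ q} (h2 : χ ^ 2 = 1) (ρ ρ' Y : ℝ) :
    S χ ρ ρ' Y = -Pool.Agent.TH942.ES.SrE HS.np (RZ.ax χ) ρ ρ' Y := by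
  unfold S Pool.Agent.TH942.ES.SrE
  congr 1
  refine finsum_congr fun v => finsum_congr fun _ => ?_
  rw [RZ.cvx h2]
  rfl

/-- **Real zeros and sums over primes.** -/
theorem result {q : ℕ} [NeZero q] (χ : DirichletCharacter ℂ q) (h1 : χ ≠ 1) (h2 : χ ^ 2 = 1) :
    List.TFAE [
      ∀ s : ℝ, 0 < s → s < 1 → 0 < (χ.LFunction (s : ℂ)).re,
      ∃ ρ ρ' : ℝ, 1 < ρ ∧ ρ < ρ' ∧ Bounded χ ρ ρ',
      ∃ ρ₀ : ℝ, ∀ ρ ρ' : ℝ, ρ₀ < ρ → ρ < ρ' → Bounded χ ρ ρ'] ∧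
    ∀ β : ℝ, 1 / 2 ≤ β → β < 1 → List.TFAE [
      ∀ s : ℝ, β < s → s < 1 → χ.LFunction (s : ℂ) ≠ 0,
      ∃ ρ ρ' : ℝ, 1 < ρ ∧ ρ < ρ' ∧ Growth χ β ρ ρ',
      ∃ ρ₀ : ℝ, ∀ ρ ρ' : ℝ, ρ₀ < ρ → ρ < ρ' → Growth χ β ρ ρ'] := by
  have hpos : (∀ s : ℝ, 0 < s → s < 1 → 0 < (χ.LFunction (s : ℂ)).re) ↔
      ∀ s : ℝ, 0 < s → s < 1 → χ.LFunction (s : ℂ) ≠ 0 := by
    constructor
    · intro h s hs0 hs1 h0
      have := h s hs0 hs1
      rw [h0, Complex.zero_re] at this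
      exact lt_irrefl _ this
    · intro h s hs0 hs1
      obtain ⟨n, z, Q, hz, -, hQ, hfac, -, -⟩ := (LogMeanZeros.result χ h1 h2).2
      have hn : n = 0 := by
        by_contra hn
        obtain ⟨h3, h4⟩ := hz 0 (Nat.pos_of_ne_zero hn)
        refine h (z 0) h3 h4 ?_
        rw [hfac (z 0) h3, Finset.prod_eq_zero (Finset.mem_range.2 (Nat.pos_of_ne_zero hn)) (sub_self _)]
        simp
      rw [hfac s hs0, hn]
      simpa using hQ s hs0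
  have e1 := RZ.bounded h1 h2
  have hB : ∀ ρ ρ' : ℝ, Bounded χ ρ ρ' ↔ ∃ C : ℝ, ∀ᶠ Y : ℝ in atTop,
      |Pool.Agent.TH942.ES.SrE HS.np (RZ.ax χ) ρ ρ' Y| ≤ C := by
    intro ρ ρ'
    unfold Bounded
    simp only [S_eq h2, abs_neg]
  have hG : ∀ β ρ ρ' : ℝ, Growth χ β ρ ρ' ↔ ∀ ε : ℝ, 0 < ε → ∃ C : ℝ, ∀ᶠ Y : ℝ in atTop,
      |Pool.Agent.TH942.ES.SrE HS.np (RZ.ax χ) ρ ρ' Y| ≤
        C * Real.exp (((β - 1 / 2) ^ ρ + ε) * Real.log Y ^ ρ) := by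
    intro β ρ ρ'
    unfold Growth
    simp only [S_eq h2, abs_neg]
  refine ⟨?_, fun β hβ _ => ?_⟩
  · rw [hpos]
    simp only [hB]
    exact e1
  · simp only [hG]
    exact RZ.level h1 h2 hβ

end Pool.Agent.Results.MP_0016c7_nt.SumsOverPrimes
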